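import Mathlib
import Pool.Agent.H8.Hfc3

set_option autoImplicit false

namespace Pool.Agent.Results.MP_23bd8d_gt.CH

open Set Filter Topology Function TopologicalSpace Pool.Agent.H8.Mich Pool.Agent.H8.Hfc

theorem result (h : Cardinal.continuum.{0} = Cardinal.aleph 1) :
    ∃ (X : Type) (_ : TopologicalSpace X), T35Space X ∧
      (∀ D : Set {f : X → ℝ | Continuous f}, DiscreteTopology D →
        SecondCountableTopology (closure D) ∧ FrechetUrysohnSpace (closure D)) ∧
      ¬ FrechetUrysohnSpace {f : X → ℝ | Continuous f} := by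
  classical
  obtain ⟨r, x, wo, hseg, h1, h2, hx⟩ := build3 h
  let y : J → range (swap x) := fun j => ⟨_, mem_range_self j⟩
  have hy : ∀ p, ∃ j, y j = p := by
    rintro ⟨_, j, rfl⟩
    exact ⟨j, rfl⟩
  have nb : ∀ O : Set (range (swap x)), IsOpen O → ∀ j, y j ∈ O → ∃ I : Set J, I.Finite ∧
      ∀ i, (∀ a ∈ I, x a i = x a j) → y i ∈ O := fun O hO j hj => by
    obtain ⟨U, hU, rfl⟩ := isOpen_induced_iff.1 hO
    obtain ⟨I, h3, h4⟩ := Pool.Agent.H8.Shd.cyl hU hj
    exact ⟨I, h3, fun i hi => h4 _ hi⟩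
  have h3 : ∀ O : Set (range (swap x)), IsOpen O →
      {j | y j ∈ O}.Countable ∨ {j | y j ∉ O}.Countable := fun O hO => by
    refine or_iff_not_imp_right.2 fun hS => ?_
    choose C h3 h4 using fun n (P : Fin n → Bool) => avoid wo hseg h2 (hx n) hS P Finset.univ
      (fun _ _ => 0) fun l hl => absurd (Finset.mem_univ l) hl
    refine (countable_iUnion fun n => countable_iUnion fun P => (h3 n P).biUnion
      fun a _ => h2 a).mono fun j hj => ?_
    obtain ⟨I, h5, h6⟩ := nb O hO j hj
    obtain ⟨m, β, rfl⟩ := h5.fin_embedding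
    obtain ⟨l, h7, h8⟩ := h4 m (fun l => x (β l) j) β β.injective
      (fun l hl => absurd (Finset.mem_univ l) hl) fun s hs h7 => hs (h6 s (by
        rintro _ ⟨l, rfl⟩
        exact h7 l))
    exact mem_iUnion₂.2 ⟨m, _, mem_biUnion h7 h8⟩
  have h4 : ∀ f : {f : range (swap x) → ℝ | Continuous f}, ∃ C : Set J, C.Countable ∧
      ∀ i ∉ C, ∀ j ∉ C, f.1 (y i) = f.1 (y j) := fun f => by
    have : ∀ q : ℚ, ∃ C : Set J, C.Countable ∧
        ((∀ i ∉ C, ¬ f.1 (y i) < q) ∨ ∀ i ∉ C, f.1 (y i) < q) := fun q =>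
      (h3 _ (isOpen_lt f.2 (continuous_const (y := (q : ℝ))))).elim
        (fun h => ⟨_, h, Or.inl fun i hi => hi⟩) fun h => ⟨_, h, Or.inr fun i hi => not_not.1 hi⟩
    choose C h4 h5 using this
    have : ∀ i ∉ ⋃ q, C q, ∀ j ∉ ⋃ q, C q, f.1 (y i) ≤ f.1 (y j) := fun i hi j hj =>
      not_lt.1 fun h6 => by
        obtain ⟨q, h7, h8⟩ := exists_rat_btwn h6
        rcases h5 q with h9 | h9
        exacts [h9 j (fun h => hj (mem_iUnion.2 ⟨q, h⟩)) h7,
          h8.not_gt (h9 i fun h => hi (mem_iUnion.2 ⟨q, h⟩))]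
    exact ⟨_, countable_iUnion h4, fun i hi j hj => (this i hi j hj).antisymm (this j hj i hi)⟩
  have h5 : ∀ C : Set J, C.Countable → ∃ j, j ∉ C := fun C hC => by
    by_contra hc
    push Not at hc
    exact not_countable_univ (hC.mono fun a _ => hc a)
  refine ⟨range (swap x), inferInstance, IsEmbedding.subtypeVal.t35Space, fun D hD => ?_,
    fun H => ?_⟩
  · have h6 : D.Countable := by
      have : ∀ f : D, ∃ (n : ℕ) (U : Fin n → countableBasis ℝ) (t : Fin n → J),
          ∀ g : D, (∀ l, g.1.1 (y (t l)) ∈ (U l).1) ↔ g = f := fun f => by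
        obtain ⟨O, h6, h7⟩ := ((IsInducing.subtypeVal.comp IsInducing.subtypeVal).isOpen_iff).1
          (isOpen_discrete {f})
        obtain ⟨I, u, h8, h9⟩ := isOpen_pi_iff.1 h6 f.1.1 (h7.ge rfl)
        obtain ⟨m, t, ht⟩ := I.finite_toSet.fin_embedding
        choose V h10 h11 h12 using fun l => (isBasis_countableBasis ℝ).exists_subset_of_mem_open
          (h8 (t l) (show t l ∈ (I : Set _) from ht ▸ mem_range_self l)).2
          (h8 (t l) (show t l ∈ (I : Set _) from ht ▸ mem_range_self l)).1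
        choose β hβ using fun l => hy (t l)
        refine ⟨m, fun l => ⟨V l, h10 l⟩, β, fun g => ⟨fun hg => h7.le (h9 fun p hp => ?_), ?_⟩⟩
        · obtain ⟨l, rfl⟩ : p ∈ range t := ht ▸ hp
          exact h12 l (hβ l ▸ hg l)
        · rintro rfl l
          exact hβ l ▸ h11 l
      have h6 : ∀ n (U : Fin n → countableBasis ℝ), {f : D | ∃ t : Fin n → J,
          ∀ g : D, (∀ l, g.1.1 (y (t l)) ∈ (U l).1) ↔ g = f}.Countable := fun n U => by
        choose! t ht using fun (f : D) (hf : f ∈ {f : D | ∃ t : Fin n → J,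
          ∀ g : D, (∀ l, g.1.1 (y (t l)) ∈ (U l).1) ↔ g = f}) => hf
        obtain ⟨E, h6, h7, h8⟩ := hs wo hseg hx t _
        refine h7.mono fun f hf => ?_
        choose I h9 h10 using fun l => nb _ ((isOpen_of_mem_countableBasis (U l).2).preimage f.1.2)
          (t f l) ((ht f hf f).2 rfl l)
        obtain ⟨d, hd, h11⟩ := h8 f hf _ (finite_iUnion h9)
        exact (ht d (h6 hd) f).1 (fun l => h10 l _ fun a ha =>
          h11 a (mem_iUnion.2 ⟨l, ha⟩) l) ▸ hd
      exact countable_coe_iff.1 (countable_univ_iff.1 ((countable_iUnion fun n =>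
        countable_iUnion (h6 n)).mono fun f _ => mem_iUnion₂.2 (this f)))
    choose C h7 h8 using h4
    have h9 := h6.biUnion fun f _ => h7 f
    obtain ⟨j₀, h10⟩ := h5 _ h9
    have : ∀ p, ∃ c : ↥(insert j₀ (⋃ f ∈ D, C f)), ∀ f ∈ closure D, f.1 (y c) = f.1 p := fun p => by
      obtain ⟨j, rfl⟩ := hy p
      by_cases hj : j ∈ ⋃ f ∈ D, C f
      · exact ⟨⟨j, Or.inr hj⟩, fun _ _ => rfl⟩
      · exact ⟨⟨j₀, Or.inl rfl⟩, fun f hf => closure_minimal (fun g hg => h8 g j₀
          (fun h => h10 (mem_biUnion hg h)) j fun h => hj (mem_biUnion hg h))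
          (isClosed_eq (f := fun g : {f : range (swap x) → ℝ | Continuous f} => g.1 (y j₀))
            (g := fun g => g.1 (y j)) ((continuous_apply _).comp continuous_subtype_val)
            ((continuous_apply _).comp continuous_subtype_val)) hf⟩
    choose c hc using this
    haveI := (h9.insert j₀).to_subtype
    have h11 : IsInducing fun (f : closure D) (i : ↥(insert j₀ (⋃ f ∈ D, C f))) => f.1.1 (y i) :=
      IsInducing.of_comp (g := fun g p => g (c p)) (continuous_pi fun i => (continuous_apply _).comp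
        (continuous_subtype_val.comp continuous_subtype_val)) (by fun_prop) (by
        rw [show (fun g p => g (c p)) ∘ (fun (f : closure D) (i : ↥(insert j₀ (⋃ f ∈ D, C f))) =>
          f.1.1 (y i)) = Subtype.val ∘ Subtype.val from funext fun f => funext fun p => hc p _ f.2]
        exact IsInducing.subtypeVal.comp IsInducing.subtypeVal)
    haveI := h11.secondCountableTopology
    exact ⟨inferInstance, inferInstance⟩
  · obtain ⟨g, h6, h7⟩ := mem_closure_iff_seq_limit.1 (show (⟨0, continuous_const⟩ :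
        {f : range (swap x) → ℝ | Continuous f}) ∈ closure {f | {j | f.1 (y j) ≠ 1}.Countable} from by
      rw [closure_subtype, mem_closure_iff]
      intro O h6 h7
      obtain ⟨I, u, h8, h9⟩ := isOpen_pi_iff.1 h6 _ h7
      choose β hβ using hy
      refine ⟨fun p => ∏ q ∈ I, if p.1 (β q) = true then (0 : ℝ) else 1, h9 fun q hq => ?_,
        ⟨_, continuous_finset_prod _ fun q _ => (continuous_of_discreteTopology
          (f := fun t : Bool => if t = true then (0 : ℝ) else 1)).comp
            ((continuous_apply (β q)).comp continuous_subtype_val)⟩,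
        (I.countable_toSet.biUnion fun q _ => h2 (β q)).mono fun j hj => by_contra fun hc =>
          hj (Finset.prod_eq_one fun q hq => if_neg fun h => hc (mem_biUnion hq h)), rfl⟩
      beta_reduce
      rw [Finset.prod_eq_zero (f := fun i => if q.1 (β i) = true then (0 : ℝ) else 1) hq
        (if_pos ((congrFun (congrArg Subtype.val (hβ q)) _).symm.trans (h1 _)))]
      exact (h8 q hq).2)
    obtain ⟨j, hj⟩ := h5 _ (countable_iUnion h6)
    have h8 := tendsto_pi_nhds.1 (tendsto_subtype_rng.1 h7) (y j)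
    have h9 : ∀ k, (g k).1 (y j) = 1 := fun k => by_contra fun hc => hj (mem_iUnion.2 ⟨k, hc⟩)
    simp only [h9] at h8
    exact one_ne_zero (tendsto_const_nhds_iff.1 h8)

end Pool.Agent.Results.MP_23bd8d_gt.CH
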